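import Pool.Agent.H29.RV1

namespace Pool.Agent.Results.MP_78e958_co.Example

open Pool.Agent.H29.RV Finset

lemma see_of {V : Type} {R : V → Rect} {e : V → Bool × Bool} {a b : V} (p : ℝ × ℝ)
    (h1 : if (e a).1 then ((R a).corner (e a)).1 < p.1 else p.1 < ((R a).corner (e a)).1)
    (h2 : if (e a).2 then ((R a).corner (e a)).2 < p.2 else p.2 < ((R a).corner (e a)).2)
    (h3 : p ∈ (R b).set)
    (h4 : p.1 = (if (e a).1 then (R b).x1 else (R b).x2) ∨
      p.2 = (if (e a).2 then (R b).y1 else (R b).y2))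
    (h5 : ∀ c, c ≠ a → c ≠ b → max ((R a).corner (e a)).1 p.1 < (R c).x1 ∨
      (R c).x2 < min ((R a).corner (e a)).1 p.1 ∨ max ((R a).corner (e a)).2 p.2 < (R c).y1 ∨
      (R c).y2 < min ((R a).corner (e a)).2 p.2) : EyeSee R e a b := by
  have ax := (R a).hx
  have ay := (R a).hy
  unfold EyeSee
  generalize e a = s at *
  obtain ⟨Q, q1, q2, q3, q4⟩ : ∃ Q : Rect, Q.x1 = min ((R a).corner s).1 p.1 ∧
      Q.x2 = max ((R a).corner s).1 p.1 ∧ Q.y1 = min ((R a).corner s).2 p.2 ∧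
      Q.y2 = max ((R a).corner s).2 p.2 := ⟨⟨_, _, _, _, by grind, by grind⟩, rfl, rfl, rfl, rfl⟩
  refine ⟨Q, (!s.1, !s.2), ?_, ?_, ?_, ?_, fun c c1 c2 => disj_iff.2 ?_⟩
  · clear h5
    rcases s with ⟨_ | _, _ | _⟩ <;> simp only [Rect.corner] at * <;> ext <;> grind
  · clear h5
    rw [mem_frontier, mem_set]
    rw [mem_set] at h3
    rcases s with ⟨_ | _, _ | _⟩ <;> simp only [Rect.corner] at * <;> grind
  · clear h5
    ext q
    rw [Set.mem_inter_iff, mem_set, mem_set, Set.mem_singleton_iff, Prod.ext_iff]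
    rcases s with ⟨_ | _, _ | _⟩ <;> simp only [Rect.corner] at * <;> grind
  · clear h5
    intro q hq
    rw [mem_frontier]
    refine ⟨hq.2, ?_⟩
    rw [Set.mem_inter_iff, mem_set, mem_set] at hq
    rcases s with ⟨_ | _, _ | _⟩ <;> simp only [Rect.corner] at * <;> grind
  · rw [q1, q2, q3, q4]; exact h5 c c1 c2

lemma of_see {V : Type} {R : V → Rect} {e : V → Bool × Bool} {a b : V} (h : EyeSee R e a b) :
    (if (e a).1 then ((R a).corner (e a)).1 < (R b).x2 else (R b).x1 < ((R a).corner (e a)).1) ∧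
    (if (e a).2 then ((R a).corner (e a)).2 < (R b).y2 else (R b).y1 < ((R a).corner (e a)).2) ∧
    ∀ c, c ≠ a → c ≠ b →
      ¬ ((if (e a).1 then ((R a).corner (e a)).1 ≤ (R c).x1 ∧ (R c).x1 ≤ (R b).x1
        else (R b).x2 ≤ (R c).x1 ∧ (R c).x1 ≤ ((R a).corner (e a)).1) ∧
      (if (e a).2 then ((R a).corner (e a)).2 ≤ (R c).y1 ∧ (R c).y1 ≤ (R b).y1
        else (R b).y2 ≤ (R c).y1 ∧ (R c).y1 ≤ ((R a).corner (e a)).2)) := by
  obtain ⟨Q, c, h1, h2, h3, -, h5⟩ := h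
  have ax := (R a).hx
  have ay := (R a).hy
  have qx := Q.hx
  have qy := Q.hy
  have h2 := mem_set.1 (mem_frontier.1 h2).1
  have h3 : ∀ q : ℝ × ℝ, q ∈ Q.set → q ∈ (R a).set → q = (R a).corner (e a) := fun q q1 q2 => by
    have : q ∈ Q.set ∩ (R a).set := ⟨q1, q2⟩
    rwa [h3] at this
  have k1 := h3 (if (e a).1 then max Q.x1 (R a).x1 else min Q.x2 (R a).x2, ((R a).corner (e a)).2)
  have k2 := h3 (((R a).corner (e a)).1, if (e a).2 then max Q.y1 (R a).y1 else min Q.y2 (R a).y2)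
  have h5 : ∀ d, d ≠ a → d ≠ b → ¬ (Q.x1 ≤ (R d).x1 ∧ (R d).x1 ≤ Q.x2 ∧ Q.y1 ≤ (R d).y1 ∧
      (R d).y1 ≤ Q.y2) := by
    intro d d1 d2
    have := disj_iff.1 (h5 d d1 d2)
    have := (R d).hx
    have := (R d).hy
    grind
  rw [mem_set, mem_set, Prod.ext_iff] at k1 k2
  rw [Prod.ext_iff] at h1
  clear h3
  refine ⟨?_, ?_, fun d d1 d2 => ?_⟩
  · clear h5
    rcases he : e a with ⟨_ | _, _ | _⟩ <;> rcases c with ⟨_ | _, _ | _⟩ <;>
      simp only [he, Rect.corner] at * <;> grind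
  · clear h5
    rcases he : e a with ⟨_ | _, _ | _⟩ <;> rcases c with ⟨_ | _, _ | _⟩ <;>
      simp only [he, Rect.corner] at * <;> grind
  · have h5 := h5 d d1 d2
    rcases he : e a with ⟨_ | _, _ | _⟩ <;> rcases c with ⟨_ | _, _ | _⟩ <;>
      simp only [he, Rect.corner] at * <;> grind

def adjB (a b : ℕ) : Bool :=
  if a < 34 then (if b < 34 then a + 1 == b || b + 1 == a else true)
  else (if b < 34 then true else (a + 1 == b || b + 1 == a) && a + b != 73)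

def G : SimpleGraph (Fin 40) where
  Adj a b := adjB a.val b.val = true
  symm := ⟨by decide +kernel⟩
  loopless := ⟨by decide +kernel⟩

def PX (a : ℕ) : ℕ := if a < 34 then 50 + a else if a < 37 then 56 + a else 10 + a
def PY (a : ℕ) : ℕ := if a < 34 then 100 - a else if a < 37 then 150 - a else 50 - a

lemma rig : IsOpenRIG G := by
  have h1 : ∀ a b : Fin 40, PX a = PX b → a = b := by decide +kernel
  have h2 : ∀ a b : Fin 40, a ≠ b → (adjB a b = true ↔ ∀ c : Fin 40,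
      ¬ ((min (PX a) (PX b) < PX c ∧ PX c < max (PX a) (PX b)) ∧
        min (PY a) (PY b) < PY c ∧ PY c < max (PY a) (PY b))) := by decide +kernel
  refine ⟨fun a => (PX a, PY a), fun a b h => h1 a b ?_, fun a b hab => ?_⟩
  · have : ((PX a : ℕ) : ℝ) = (PX b : ℕ) := congrArg Prod.fst h
    exact_mod_cast this
  · refine (h2 a b hab).trans (forall_congr' fun c => not_congr ?_)
    simp only [Set.uIcc, interior_prod_eq, interior_Icc, Set.mem_prod, Set.mem_Ioo]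
    norm_cast

def X1 (a : ℕ) : ℕ := if a < 34 then 10 + 3 * a else [1, 130, 3, 120, 5, 122].getD (a - 34) 0
def X2 (a : ℕ) : ℕ := if a = 38 then 125 else X1 a + 1
def Y1 (a : ℕ) : ℕ := if a < 34 then 10 + 3 * a else [120, 5, 122, 1, 130, 3].getD (a - 34) 0
def Y2 (a : ℕ) : ℕ := if a = 35 then 125 else Y1 a + 1
def es (a : ℕ) : Bool := a != 37 && a != 39
def et (a : ℕ) : Bool := a != 34 && a != 36
def EX (a : ℕ) : ℕ := if es a then X2 a else X1 a
def EY (a : ℕ) : ℕ := if et a then Y2 a else Y1 a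
def NX (a b : ℕ) : ℕ := if es a then X1 b else X2 b
def NY (a b : ℕ) : ℕ := if et a then Y1 b else Y2 b
def cand (a b : ℕ) : List (ℕ × ℕ) :=
  [(NX a b, NY a b), (NX a b, EY a + 1), (EX a + 1, NY a b), (NX a b, 115), (115, NY a b)]

def Good (a b : Fin 40) (p : ℕ × ℕ) : Prop :=
  (if es a then EX a < p.1 else p.1 < EX a) ∧ (if et a then EY a < p.2 else p.2 < EY a) ∧
  (X1 b ≤ p.1 ∧ p.1 ≤ X2 b ∧ Y1 b ≤ p.2 ∧ p.2 ≤ Y2 b) ∧ (p.1 = NX a b ∨ p.2 = NY a b) ∧
  ∀ c : Fin 40, c ≠ a → c ≠ b → max (EX a) p.1 < X1 c ∨ X2 c < min (EX a) p.1 ∨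
    max (EY a) p.2 < Y1 c ∨ Y2 c < min (EY a) p.2

instance (a b : Fin 40) (p : ℕ × ℕ) : Decidable (Good a b p) := by unfold Good; infer_instance

def Nec (a b : Fin 40) : Prop :=
  (if es a then EX a < X2 b else X1 b < EX a) ∧ (if et a then EY a < Y2 b else Y1 b < EY a) ∧
    ∀ c : Fin 40, c ≠ a → c ≠ b →
      ¬ ((if es a then EX a ≤ X1 c ∧ X1 c ≤ X1 b else X2 b ≤ X1 c ∧ X1 c ≤ EX a) ∧
      (if et a then EY a ≤ Y1 c ∧ Y1 c ≤ Y1 b else Y2 b ≤ Y1 c ∧ Y1 c ≤ EY a))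

instance (a b : Fin 40) : Decidable (Nec a b) := by unfold Nec; infer_instance

lemma hX : ∀ a : Fin 40, X1 a < X2 a ∧ Y1 a < Y2 a := by decide +kernel

noncomputable def RR (a : Fin 40) : Rect :=
  ⟨X1 a, X2 a, Y1 a, Y2 a, by exact_mod_cast (hX a).1, by exact_mod_cast (hX a).2⟩

def ee (a : Fin 40) : Bool × Bool := (es a, et a)

lemma cor (a : Fin 40) : (RR a).corner (ee a) = ((EX a : ℝ), (EY a : ℝ)) := by
  simp [Rect.corner, RR, ee, EX, EY]

lemma good_see {a b : Fin 40} {p : ℕ × ℕ} (h : Good a b p) : EyeSee RR ee a b := by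
  obtain ⟨h1, h2, h3, h4, h5⟩ := h
  apply see_of ((p.1 : ℝ), (p.2 : ℝ))
  · rw [cor]; simp only [ee]; exact_mod_cast h1
  · rw [cor]; simp only [ee]; exact_mod_cast h2
  · rw [mem_set]; simp only [RR]; exact_mod_cast h3
  · simp only [ee, RR]; simp only [NX, NY] at h4; exact_mod_cast h4
  · intro c c1 c2
    rw [cor]; simp only [RR]; exact_mod_cast h5 c c1 c2

lemma see_nec {a b : Fin 40} (h : EyeSee RR ee a b) : Nec a b := by
  obtain ⟨h1, h2, h3⟩ := of_see h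
  rw [cor] at h1 h2 h3
  simp only [ee, RR] at h1 h2 h3
  exact ⟨by exact_mod_cast h1, by exact_mod_cast h2, fun c c1 c2 => by exact_mod_cast h3 c c1 c2⟩

lemma crvg : IsCRVG G := by
  have h1 : ∀ a b : Fin 40, a ≠ b → X2 a < X1 b ∨ X2 b < X1 a ∨ Y2 a < Y1 b ∨ Y2 b < Y1 a := by
    decide +kernel
  have h2 : ∀ a b : Fin 40, adjB a b = true →
      (∃ p ∈ cand a b, Good a b p) ∨ ∃ p ∈ cand b a, Good b a p := by decide +kernel
  have h3 : ∀ a b : Fin 40, a ≠ b → Nec a b → adjB a b = true := by decide +kernel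
  refine ⟨RR, ee, fun a b hab => disj_iff.2 ?_, fun a b hab => ⟨fun h => ?_, fun h => ?_⟩⟩
  · simp only [RR]; exact_mod_cast h1 a b hab
  · rcases h2 a b h with ⟨p, -, h⟩ | ⟨p, -, h⟩
    · exact Or.inl (good_see h)
    · exact Or.inr (good_see h)
  · rcases h with h | h
    · exact h3 a b hab (see_nec h)
    · exact G.adj_symm (h3 b a hab.symm (see_nec h))

theorem result : ∃ (n : ℕ) (G : SimpleGraph (Fin n)), IsOpenRIG G ∧ IsCRVG G ∧ ¬ IsRVG G := by
  refine ⟨40, G, rig, crvg, fun h => ?_⟩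
  have h1 := rvg_card h
  have h2 : (univ.filter (fun p : Fin 40 × Fin 40 => adjB p.1 p.2 = true)).card = 482 := by
    decide +kernel
  have h3 : (univ.filter (fun p : Fin 40 × Fin 40 => adjB p.1 p.2 = true)).card ≤
      12 * Fintype.card (Fin 40) := by
    convert h1 using 3
    rfl
  rw [h2, Fintype.card_fin] at h3
  omega

end Pool.Agent.Results.MP_78e958_co.Example
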